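import Pool.Agent.N126.IS.Stm2

/-!
Algebraically closed intermediate fields.
-/

set_option autoImplicit false

open Pool.Agent.N126.IS

namespace Pool.Agent.N896.IS

section

variable (k : Type) {K : Type} [Field k] [Field K] [Algebra k K]

/-- the algebraic closure in `K` of the field generated by a set -/
noncomputable def clos (A : Set K) : IntermediateField k K :=
  (algebraicClosure (IntermediateField.adjoin k A) K).restrictScalars k

theorem subset_clos (A : Set K) : A ⊆ clos k A := by
  intro a ha
  have h1 : a ∈ IntermediateField.adjoin k A := IntermediateField.subset_adjoin k A ha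
  change a ∈ algebraicClosure (IntermediateField.adjoin k A) K
  rw [mem_algebraicClosure_iff]
  exact isAlgebraic_algebraMap (⟨a, h1⟩ : IntermediateField.adjoin k A)

theorem isAlgClosed_clos [IsAlgClosed K] (A : Set K) : IsAlgClosed (clos k A) := by
  have h : IsAlgClosed (algebraicClosure (IntermediateField.adjoin k A) K) :=
    (algebraicClosure.isAlgClosure (IntermediateField.adjoin k A) K).isAlgClosed
  exact h

theorem le_trdeg_clos (A : Set K) (hA : AlgebraicIndependent k (fun a : A => (a : K))) :
    Cardinal.mk A ≤ Algebra.trdeg k (clos k A) := by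
  let y : A → clos k A := fun a => ⟨a, subset_clos k A a.2⟩
  have hy : AlgebraicIndependent k y := by
    apply AlgebraicIndependent.of_comp (clos k A).val
    exact hA
  exact hy.cardinalMk_le_trdeg

theorem trdeg_clos_ne_zero (A : Set K) (s : K) (hs : s ∉ A)
    (h : AlgebraicIndepOn k (id : K → K) (insert s A)) :
    Algebra.trdeg (clos k A) K ≠ 0 := by
  have ht1 : Transcendental (Algebra.adjoin k A) s := by
    have h2 := ((AlgebraicIndepOn.insert_iff hs).mp h).2
    rwa [Set.image_id] at h2
  have ht2 : Transcendental (IntermediateField.adjoin k A) s := by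
    intro h1
    exact ht1 (IntermediateField.isAlgebraic_adjoin_iff.mp h1)
  have ht : Transcendental (algebraicClosure (IntermediateField.adjoin k A) K) s := by
    intro h1
    exact ht2 (h1.restrictScalars (IntermediateField.adjoin k A))
  have ht' : Transcendental (clos k A) s := ht
  rw [trdeg_ne_zero_iff]
  exact ⟨s, ht'⟩

theorem finTrdeg_clos (T : Finset K) : Algebra.trdeg k (clos k (T : Set K)) < Cardinal.aleph0 := by
  have h1 : Algebra.EssFiniteType k (IntermediateField.adjoin k (T : Set K)) := by
    rw [IntermediateField.essFiniteType_iff]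
    exact ⟨T, rfl⟩
  let E0 := algebraicClosure (IntermediateField.adjoin k (T : Set K)) K
  have h2 : FinTrdeg k (IntermediateField.adjoin k (T : Set K)) := inferInstance
  have h3 : FinTrdeg (IntermediateField.adjoin k (T : Set K)) E0 := inferInstance
  have h4 : IsScalarTower k (IntermediateField.adjoin k (T : Set K)) E0 := inferInstance
  have h5 : FinTrdeg k E0 := FinTrdeg.trans k (IntermediateField.adjoin k (T : Set K)) E0
  exact trdeg_lt_aleph0 k E0

end

theorem main_K1 : S_K1 := by
  intro k K _ _ _ _ r hr
  obtain ⟨B, hB⟩ := exists_isTranscendenceBasis k K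
  have hcard : Cardinal.mk B = r + 1 := by rw [hB.cardinalMk_eq_trdeg, hr]
  have hne : B.Nonempty := by
    rw [← Set.nonempty_coe_sort, ← Cardinal.mk_ne_zero_iff, hcard]
    exact_mod_cast Nat.succ_ne_zero r
  obtain ⟨s, hs⟩ := hne
  set A : Set K := B \ {s} with hA
  have hins : insert s A = B := by
    rw [hA, Set.insert_sdiff_singleton]; exact Set.insert_eq_of_mem hs
  have hsA : s ∉ A := fun h => h.2 rfl
  have hcA : Cardinal.mk A = r := by
    have h1 := Cardinal.mk_insert hsA
    rw [hins, hcard] at h1
    have h2 : Cardinal.mk A < Cardinal.aleph0 := by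
      have : Cardinal.mk A ≤ r + 1 := by rw [h1]; exact le_self_add
      exact this.trans_lt (by exact_mod_cast (Cardinal.natCast_lt_aleph0 (n := r + 1)))
    obtain ⟨a, ha⟩ := Cardinal.lt_aleph0.1 h2
    rw [ha] at h1 ⊢
    have : r + 1 = a + 1 := by exact_mod_cast h1
    have : a = r := by omega
    rw [this]
  have hind : AlgebraicIndepOn k (id : K → K) (insert s A) := by
    rw [hins]; exact hB.1
  have hindA : AlgebraicIndependent k (fun a : A => (a : K)) := by
    have := ((AlgebraicIndepOn.insert_iff hsA).mp hind).1
    exact this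
  have h1 := le_trdeg_clos k A hindA
  have h2 := trdeg_clos_ne_zero k A s hsA hind
  have h3 := trdeg_add_eq k (clos k A) (A := K)
  rw [hr] at h3
  rw [hcA] at h1
  have hfin1 : Algebra.trdeg k (clos k A) < Cardinal.aleph0 := by
    have : Algebra.trdeg k (clos k A) ≤ r + 1 := by rw [← h3]; exact le_self_add
    exact this.trans_lt (by exact_mod_cast (Cardinal.natCast_lt_aleph0 (n := r + 1)))
  have hfin2 : Algebra.trdeg (clos k A) K < Cardinal.aleph0 := by
    have : Algebra.trdeg (clos k A) K ≤ r + 1 := by rw [← h3]; exact le_add_self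
    exact this.trans_lt (by exact_mod_cast (Cardinal.natCast_lt_aleph0 (n := r + 1)))
  obtain ⟨a, ha⟩ := Cardinal.lt_aleph0.1 hfin1
  obtain ⟨b, hb⟩ := Cardinal.lt_aleph0.1 hfin2
  refine ⟨clos k A, isAlgClosed_clos k A, ?_, ?_⟩
  · rw [ha, hb] at h3
    rw [ha] at h1 ⊢
    rw [hb] at h2
    have e1 : a + b = r + 1 := by exact_mod_cast h3
    have e2 : r ≤ a := by exact_mod_cast h1
    have e3 : b ≠ 0 := by exact_mod_cast h2
    have : a = r := by omega
    rw [this]
  · rw [ha, hb] at h3
    rw [ha] at h1
    rw [hb] at h2 ⊢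
    have e1 : a + b = r + 1 := by exact_mod_cast h3
    have e2 : r ≤ a := by exact_mod_cast h1
    have e3 : b ≠ 0 := by exact_mod_cast h2
    have : b = 1 := by omega
    rw [this]
    simp

theorem main_KF : S_KF := by
  intro k K _ _ _ _ T
  obtain ⟨r, hr⟩ := Cardinal.lt_aleph0.1 (finTrdeg_clos k T)
  exact ⟨clos k (T : Set K), r, isAlgClosed_clos k _, hr, subset_clos k _⟩

end Pool.Agent.N896.IS
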